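import Mathlib
import Pool.Agent.Helper25_TD.Oracle

/-!
# Codes of null sets
-/

set_option autoImplicit false

namespace Pool.Agent.Helper56WN

open Pool.Agent.Helper25TD MeasureTheory

/-- The fair-coin (uniform) measure on Cantor space. -/
noncomputable def coin : Measure (ℕ → Bool) :=
  Measure.infinitePi fun _ : ℕ => (PMF.uniformOfFintype Bool).toMeasure

/-- the finite string `s` is an initial segment of `x` -/
def Init (s : List Bool) (x : ℕ → Bool) : Prop := ∀ j < s.length, x j = s.getD j false

/-- the set of all `x` that have an initial segment in the finite list `u` of strings -/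
def Cov (u : List (List Bool)) : Set (ℕ → Bool) := {x | ∃ s ∈ u, Init s x}

/-- the weight of a finite list of strings; a string of length `m` has weight `(1 / 2) ^ m` -/
noncomputable def wt (u : List (List Bool)) : ℝ := (u.map fun s => (1 / 2 : ℝ) ^ s.length).sum

/-- A test is a sequence of finite lists of strings such that the `n`-th list has weight at most
`(1 / 4) ^ n`. -/
def IsTest (C : ℕ → List (List Bool)) : Prop := ∀ n, wt (C n) ≤ (1 / 4) ^ n

/-- the null set with code `C`: the set of all `x` that have an initial segment in `C n` for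
infinitely many `n` -/
def Nl (C : ℕ → List (List Bool)) : Set (ℕ → Bool) := {x | ∀ N, ∃ n ≥ N, x ∈ Cov (C n)}

/-- the sequence `C` is computable from `y` -/
def Computes (y : ℕ → Bool) (C : ℕ → List (List Bool)) : Prop :=
  Nat.RecursiveIn {chi y} fun n => (Encodable.encode (C n) : Part ℕ)

/-- `y` computes a test that covers `S` -/
def Captures (y : ℕ → Bool) (S : Set (ℕ → Bool)) : Prop :=
  ∃ C, IsTest C ∧ Computes y C ∧ S ⊆ Nl C

/-- the set of all points `x` of `E` such that `y` captures the set `h x` -/
def Reach (E : Set (ℕ → Bool)) (h : (ℕ → Bool) → Set (ℕ → Bool)) (y : ℕ → Bool) :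
    Set (ℕ → Bool) := {x ∈ E | Captures y (h x)}

/-- the set of all `y` that do not capture `Reach E h y` -/
def Uncovered (E : Set (ℕ → Bool)) (h : (ℕ → Bool) → Set (ℕ → Bool)) : Set (ℕ → Bool) :=
  {y | ¬ Captures y (Reach E h y)}

end Pool.Agent.Helper56WN
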