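import Mathlib
import Pool.Agent.Helper56_WN.Defs

/-!
# Null sets and tests
-/

set_option autoImplicit false

namespace Pool.Agent.Helper56WN

open Pool.Agent.Helper25TD MeasureTheory Filter
open scoped ENNReal

instance : IsProbabilityMeasure coin := by
  unfold coin
  infer_instance

theorem wt_nil : wt [] = 0 := by simp [wt]

theorem wt_cons (s : List Bool) (u : List (List Bool)) :
    wt (s :: u) = (1 / 2 : ℝ) ^ s.length + wt u := by simp [wt]

theorem wt_append (u v : List (List Bool)) : wt (u ++ v) = wt u + wt v := by simp [wt]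

theorem wt_nonneg (u : List (List Bool)) : 0 ≤ wt u := by
  induction u with
  | nil => rw [wt_nil]
  | cons s u ih =>
    rw [wt_cons]
    positivity

theorem wt_flatMap {α : Type*} (l : List α) (E : α → List (List Bool)) :
    wt (l.flatMap E) = (l.map fun a => wt (E a)).sum := by
  induction l with
  | nil => simp [wt_nil]
  | cons a l ih => rw [List.flatMap_cons, wt_append, ih, List.map_cons, List.sum_cons]

theorem cov_nil : Cov [] = ∅ := by simp [Cov]

theorem cov_cons (s : List Bool) (u : List (List Bool)) :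
    Cov (s :: u) = {x | Init s x} ∪ Cov u := by
  ext x
  simp [Cov]

theorem cov_mono {u v : List (List Bool)} (h : ∀ s ∈ u, s ∈ v) : Cov u ⊆ Cov v :=
  fun _ ⟨s, hs, hx⟩ => ⟨s, h s hs, hx⟩

theorem init_eq_pi (s : List Bool) : {x | Init s x} =
    Set.pi (Finset.range s.length) fun i => {s.getD i false} := by
  ext x
  simp [Init, Set.mem_pi]

theorem measurableSet_init (s : List Bool) : MeasurableSet {x | Init s x} := by
  rw [init_eq_pi]
  exact MeasurableSet.pi (Finset.countable_toSet _) fun i _ => MeasurableSet.singleton _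

theorem measurableSet_cov (u : List (List Bool)) : MeasurableSet (Cov u) := by
  induction u with
  | nil =>
    rw [cov_nil]
    exact MeasurableSet.empty
  | cons s u ih =>
    rw [cov_cons]
    exact (measurableSet_init s).union ih

theorem coin_init (s : List Bool) :
    coin {x | Init s x} = ENNReal.ofReal ((1 / 2 : ℝ) ^ s.length) := by
  rw [init_eq_pi]
  unfold coin
  rw [Measure.infinitePi_pi]
  · have : ∀ b : Bool, (PMF.uniformOfFintype Bool).toMeasure {b} = (1 / 2 : ℝ≥0∞) := by
      intro b
      rw [PMF.toMeasure_apply_singleton _ _ (MeasurableSet.singleton b),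
        PMF.uniformOfFintype_apply]
      simp
    simp only [this, Finset.prod_const, Finset.card_range]
    rw [ENNReal.ofReal_pow (by norm_num)]
    congr 1
    rw [ENNReal.ofReal_div_of_pos (by norm_num)]
    simp
  · intro i _
    exact MeasurableSet.singleton _

theorem coin_cov_le (u : List (List Bool)) : coin (Cov u) ≤ ENNReal.ofReal (wt u) := by
  induction u with
  | nil => simp [cov_nil]
  | cons s u ih =>
    rw [cov_cons, wt_cons, ENNReal.ofReal_add (by positivity) (wt_nonneg u)]
    refine (measure_union_le _ _).trans ?_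
    rw [coin_init]
    gcongr

theorem Nl_eq (C : ℕ → List (List Bool)) : Nl C = {x | ∃ᶠ n in atTop, x ∈ Cov (C n)} := by
  ext x
  simp only [Nl, Set.mem_ofPred_eq, frequently_atTop]

/-- the set covered infinitely often by a sequence of lists of summable weights is null -/
theorem coin_Nl {C : ℕ → List (List Bool)} (hC : IsTest C) : coin (Nl C) = 0 := by
  rw [Nl_eq]
  refine measure_setOfPred_frequently_eq_zero (p := fun n x => x ∈ Cov (C n)) ?_
  have h1 : ∀ n, coin {x | x ∈ Cov (C n)} ≤ ENNReal.ofReal ((1 / 4 : ℝ) ^ n) := fun n =>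
    (coin_cov_le (C n)).trans (ENNReal.ofReal_le_ofReal (hC n))
  have h2 : Summable fun n : ℕ => (1 / 4 : ℝ) ^ n :=
    summable_geometric_of_lt_one (by norm_num) (by norm_num)
  refine ne_top_of_le_ne_top ?_ (ENNReal.tsum_le_tsum h1)
  rw [← ENNReal.ofReal_tsum_of_nonneg (fun n => by positivity) h2]
  exact ENNReal.ofReal_ne_top

/-! ### the list of all strings of length `n` -/

/-- all strings of length `n` -/
def full : ℕ → List (List Bool)
  | 0 => [[]]
  | n + 1 => (full n).map (List.cons true) ++ (full n).map (List.cons false)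

theorem mem_full {n : ℕ} {s : List Bool} : s ∈ full n ↔ s.length = n := by
  induction n generalizing s with
  | zero => simp [full]
  | succ n ih =>
    cases s with
    | nil => simp [full]
    | cons b s => cases b <;> simp [full, ih]

theorem length_full (n : ℕ) : (full n).length = 2 ^ n := by
  induction n with
  | zero => rfl
  | succ n ih =>
    simp only [full, List.length_append, List.length_map, ih]
    rw [pow_succ]
    omega

theorem nodup_full (n : ℕ) : (full n).Nodup := by
  induction n with
  | zero => simp [full]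
  | succ n ih =>
    simp only [full]
    refine List.Nodup.append (ih.map ?_) (ih.map ?_) ?_
    · intro a b h
      exact (List.cons.inj h).2
    · intro a b h
      exact (List.cons.inj h).2
    · intro s hs ht
      simp only [List.mem_map] at hs ht
      obtain ⟨a, -, rfl⟩ := hs
      obtain ⟨b, -, h⟩ := ht
      simp at h

theorem Init.eq {s t : List Bool} {x : ℕ → Bool} (h : Init s x) (h' : Init t x)
    (hl : s.length = t.length) : s = t := by
  refine List.ext_getElem hl fun i hi hi' => ?_
  have h1 := h i hi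
  have h2 := h' i hi'
  rw [h1] at h2
  simpa [List.getD_eq_getElem?_getD, hi, hi'] using h2

theorem init_pre (x : ℕ → Bool) (n : ℕ) : Init (pre x n) x := by
  intro j hj
  have hj' : j < n := by simpa [pre] using hj
  simp [pre, List.getD_eq_getElem?_getD, hj']

/-- for distinct strings of the same length the weight is the measure -/
theorem coin_cov_eq {m : ℕ} {u : List (List Bool)} (hu : u.Nodup) (hm : ∀ s ∈ u, s.length = m) :
    coin (Cov u) = ENNReal.ofReal (wt u) := by
  induction u with
  | nil => simp [cov_nil, wt_nil]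
  | cons s u ih =>
    rw [cov_cons, wt_cons, ENNReal.ofReal_add (by positivity) (wt_nonneg u)]
    rw [measure_union ?_ (measurableSet_cov u), coin_init,
      ih hu.of_cons fun t ht => hm t (List.mem_cons_of_mem _ ht)]
    rw [Set.disjoint_left]
    rintro x hx ⟨t, ht, hxt⟩
    have : s = t := Init.eq hx hxt (by
      rw [hm s List.mem_cons_self, hm t (List.mem_cons_of_mem _ ht)])
    subst this
    exact (List.nodup_cons.1 hu).1 ht

/-- an open set is the union of a sequence of lists of strings whose total weight is at most its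
measure -/
theorem exists_lists {O : Set (ℕ → Bool)} (hO : IsOpen O) :
    ∃ L : ℕ → List (List Bool), (∀ x ∈ O, ∃ m, x ∈ Cov (L m)) ∧
      ∑' m, ENNReal.ofReal (wt (L m)) ≤ coin O := by
  classical
  -- a string is good if its cylinder is contained in `O`
  let good : List Bool → Prop := fun s => ∀ x, Init s x → x ∈ O
  let L : ℕ → List (List Bool) := fun m =>
    (full m).filter fun s => good s ∧ ∀ k < m, ¬ good (s.take k)
  have hL : ∀ m s, s ∈ L m ↔ s.length = m ∧ good s ∧ ∀ k < m, ¬ good (s.take k) := by
    intro m s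
    simp [L, mem_full]
  have hopen : ∀ x ∈ O, ∃ m, good (pre x m) := by
    intro x hx
    rw [isOpen_pi_iff] at hO
    obtain ⟨I, u, h1, h2⟩ := hO x hx
    refine ⟨I.sup id + 1, fun y hy => h2 fun i hi => ?_⟩
    have hi' : i < I.sup id + 1 := Nat.lt_succ_of_le (Finset.le_sup (f := id) hi)
    have h3 := hy i (by simpa [pre] using hi')
    have h4 : y i = x i := by
      rw [h3]
      simp [pre, List.getD_eq_getElem?_getD, hi']
    rw [h4]
    exact (h1 i hi).2
  have hdisj : Pairwise (Function.onFun Disjoint fun m => Cov (L m)) := by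
    have key : ∀ m n x, m < n → x ∈ Cov (L m) → x ∈ Cov (L n) → False := by
      rintro m n x hmn ⟨s, hs, hsx⟩ ⟨t, ht, htx⟩
      rw [hL] at hs ht
      refine ht.2.2 m hmn ?_
      have : t.take m = s := by
        refine Init.eq (x := x) (fun j hj => ?_) hsx ?_
        · rw [List.length_take] at hj
          rw [htx j (by omega)]
          simp only [List.getD_eq_getElem?_getD]
          rw [List.getElem?_take_of_lt (by omega)]
        · rw [List.length_take, hs.1, ht.1]
          omega
      rw [this]
      exact hs.2.1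
    intro m n hmn
    rw [Function.onFun, Set.disjoint_left]
    intro x hx hx'
    rcases lt_or_gt_of_ne hmn with h | h
    · exact key m n x h hx hx'
    · exact key n m x h hx' hx
  refine ⟨L, fun x hx => ?_, ?_⟩
  · obtain ⟨m, hm, hmin⟩ : ∃ m, good (pre x m) ∧ ∀ k < m, ¬ good (pre x k) :=
      ⟨Nat.find (hopen x hx), Nat.find_spec (hopen x hx), fun k hk => Nat.find_min (hopen x hx) hk⟩
    refine ⟨m, pre x m, ?_, init_pre x _⟩
    rw [hL]
    refine ⟨by simp [pre], hm, fun k hk hgood => ?_⟩
    refine hmin k hk ?_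
    have : (pre x m).take k = pre x k := by
      refine Init.eq (x := x) (fun j hj => ?_) (init_pre x k) ?_
      · rw [List.length_take] at hj
        have hj2 : j < (pre x m).length := lt_of_lt_of_le hj (min_le_right _ _)
        have h3 := init_pre x m j hj2
        rw [h3]
        simp only [List.getD_eq_getElem?_getD]
        rw [List.getElem?_take_of_lt (lt_of_lt_of_le hj (min_le_left _ _))]
      · rw [List.length_take]
        simp only [pre, List.length_map, List.length_range]
        omega
    rwa [this] at hgood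
  · have h1 : ∀ m, ENNReal.ofReal (wt (L m)) = coin (Cov (L m)) := fun m =>
      (coin_cov_eq ((nodup_full m).filter _) fun s hs => ((hL m s).1 hs).1).symm
    simp only [h1]
    rw [← measure_iUnion hdisj fun m => measurableSet_cov _]
    refine measure_mono (Set.iUnion_subset fun m => ?_)
    rintro x ⟨s, hs, hx⟩
    exact ((hL m s).1 hs).2.1 x hx

/-- grouping a summable sequence of lists -/
theorem exists_group {E : ℕ → List (List Bool)} (hE : Summable fun i => wt (E i)) :
    ∃ C, IsTest C ∧ ∀ x, (∀ N, ∃ i ≥ N, x ∈ Cov (E i)) → x ∈ Nl C := by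
  classical
  have htail : ∀ ε > (0 : ℝ), ∃ N : ℕ, ∀ A B : ℕ, N ≤ A → ∑ i ∈ Finset.Ico A B, wt (E i) ≤ ε := by
    intro ε hε
    obtain ⟨s, hs⟩ := summable_iff_vanishing_norm.1 hE ε hε
    refine ⟨s.sup id + 1, fun A B hA => ?_⟩
    have h1 := hs (Finset.Ico A B) (by
      rw [Finset.disjoint_left]
      intro i hi his
      have h2 : i ≤ s.sup id := Finset.le_sup (f := id) his
      rw [Finset.mem_Ico] at hi
      omega)
    exact (le_abs_self _).trans h1.le
  choose! N0 hN0 using htail
  let N : ℕ → ℕ := fun k => ∑ j ∈ Finset.range (k + 1), (N0 ((1 / 4 : ℝ) ^ j) + 1)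
  have hNlt : ∀ k, N k < N (k + 1) := by
    intro k
    simp only [N]
    rw [Finset.sum_range_succ _ (k + 1)]
    omega
  have hmono : StrictMono N := strictMono_nat_of_lt_succ hNlt
  have hNge : ∀ k, N0 ((1 / 4 : ℝ) ^ k) ≤ N k := by
    intro k
    simp only [N]
    rw [Finset.sum_range_succ]
    omega
  refine ⟨fun k => (Finset.Ico (N k) (N (k + 1))).toList.flatMap E, fun k => ?_, fun x hx => ?_⟩
  · rw [wt_flatMap, Finset.sum_map_toList]
    exact hN0 ((1 / 4 : ℝ) ^ k) (by positivity) _ _ (hNge k)
  · intro K
    obtain ⟨i, hi, hxi⟩ := hx (N K)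
    let k := Nat.findGreatest (fun k => N k ≤ i) i
    have h1 : N k ≤ i := by
      refine Nat.findGreatest_spec (P := fun k => N k ≤ i) (m := K) ?_ hi
      exact (hmono.le_apply).trans hi
    have h2 : K ≤ k := Nat.le_findGreatest ((hmono.le_apply).trans hi) hi
    have h3 : i < N (k + 1) := by
      by_contra hcon
      push Not at hcon
      have h4 : k + 1 ≤ i := (hmono.le_apply).trans hcon
      have h5 : k + 1 ≤ k := Nat.le_findGreatest (P := fun k => N k ≤ i) h4 hcon
      omega
    refine ⟨k, h2, ?_⟩
    obtain ⟨s, hs, hxs⟩ := hxi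
    refine ⟨s, List.mem_flatMap.2 ⟨i, ?_, hs⟩, hxs⟩
    rw [Finset.mem_toList, Finset.mem_Ico]
    exact ⟨h1, h3⟩

/-- every null set is covered by a test -/
theorem exists_Nl {S : Set (ℕ → Bool)} (hS : coin S = 0) : ∃ C, IsTest C ∧ S ⊆ Nl C := by
  have h1 : ∀ n : ℕ, ∃ L : ℕ → List (List Bool), (∀ x ∈ S, ∃ m, x ∈ Cov (L m)) ∧
      ∑' m, ENNReal.ofReal (wt (L m)) ≤ ENNReal.ofReal ((1 / 2 : ℝ) ^ n) := by
    intro n
    obtain ⟨O, hSO, hO, hlt⟩ := S.exists_isOpen_lt_of_lt (μ := coin)
      (ENNReal.ofReal ((1 / 2 : ℝ) ^ n)) (by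
        rw [hS]
        exact ENNReal.ofReal_pos.2 (by positivity))
    obtain ⟨L, h2, h3⟩ := exists_lists hO
    exact ⟨L, fun x hx => h2 x (hSO hx), h3.trans hlt.le⟩
  choose L hL1 hL2 using h1
  have h2 : Summable fun i : ℕ => wt (L i.unpair.1 i.unpair.2) := by
    have h3 : ∑' i : ℕ, ENNReal.ofReal (wt (L i.unpair.1 i.unpair.2)) ≠ ∞ := by
      have h4 : ∑' i : ℕ, ENNReal.ofReal (wt (L i.unpair.1 i.unpair.2)) =
          ∑' p : ℕ × ℕ, ENNReal.ofReal (wt (L p.1 p.2)) :=
        Nat.pairEquiv.symm.tsum_eq fun p : ℕ × ℕ => ENNReal.ofReal (wt (L p.1 p.2))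
      rw [h4, ENNReal.tsum_prod (f := fun n m => ENNReal.ofReal (wt (L n m)))]
      refine ne_top_of_le_ne_top ?_ (ENNReal.tsum_le_tsum hL2)
      rw [← ENNReal.ofReal_tsum_of_nonneg (fun n => by positivity)
        (summable_geometric_of_lt_one (by norm_num) (by norm_num))]
      exact ENNReal.ofReal_ne_top
    have h5 := ENNReal.summable_toReal h3
    refine h5.congr fun i => ?_
    rw [ENNReal.toReal_ofReal (wt_nonneg _)]
  obtain ⟨C, hC, hx⟩ := exists_group h2
  refine ⟨C, hC, fun x hxS => hx x fun N => ?_⟩
  obtain ⟨m, hm⟩ := hL1 N x hxS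
  refine ⟨Nat.pair N m, Nat.left_le_pair N m, ?_⟩
  simpa using hm

/-! ### regrouping -/

/-- replacing a sequence of lists of weight at most `(1 / 2) ^ n` by a test -/
def regroup (U : ℕ → List (List Bool)) (n : ℕ) : List (List Bool) := U (2 * n + 1) ++ U (2 * n + 2)

theorem isTest_regroup {U : ℕ → List (List Bool)} (hU : ∀ n, wt (U n) ≤ (1 / 2) ^ n) :
    IsTest (regroup U) := by
  intro n
  unfold regroup
  rw [wt_append]
  refine (add_le_add (hU _) (hU _)).trans ?_
  rw [pow_add, pow_add, pow_mul]
  norm_num
  nlinarith [pow_pos (show (0 : ℝ) < 1 / 4 by norm_num) n]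

theorem mem_regroup {U : ℕ → List (List Bool)} {x : ℕ → Bool}
    (h : ∀ N, ∃ n ≥ N, x ∈ Cov (U n)) : x ∈ Nl (regroup U) := by
  intro N
  obtain ⟨n, hn, s, hs, hx⟩ := h (2 * N + 2)
  refine ⟨(n - 1) / 2, by omega, s, ?_, hx⟩
  unfold regroup
  rw [List.mem_append]
  rcases Nat.even_or_odd n with ⟨k, hk⟩ | ⟨k, hk⟩
  · right
    have : 2 * ((n - 1) / 2) + 2 = n := by omega
    rw [this]
    exact hs
  · left
    have : 2 * ((n - 1) / 2) + 1 = n := by omega
    rw [this]
    exact hs

/-- cut off a list that is too heavy -/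
noncomputable def trim (k : ℕ) (u : List (List Bool)) : List (List Bool) := by
  classical
  exact if wt u ≤ (1 / 4) ^ k then u else []

theorem wt_trim (k : ℕ) (u : List (List Bool)) : wt (trim k u) ≤ (1 / 4) ^ k := by
  classical
  unfold trim
  split_ifs with h
  · exact h
  · rw [wt_nil]
    positivity

theorem trim_eq {k : ℕ} {u : List (List Bool)} (h : wt u ≤ (1 / 4) ^ k) : trim k u = u := by
  classical
  unfold trim
  rw [if_pos h]

end Pool.Agent.Helper56WN
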