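import Mathlib
import Pool.Agent.Helper56_WN.Null
import Pool.Agent.Helper56_WM.Local
import Pool.Agent.Helper56_TB.Games

/-!
# Codes of null sets: basic facts
-/

set_option autoImplicit false

namespace Pool.Agent.Helper56WN

open Pool.Agent.Helper25TD Pool.Agent.Helper55AX MeasureTheory
open Pool.Agent.Helper56WM (Loc grf grf_pair TR_of_grf)

theorem TRmono {y y' : ℕ → Bool} {f : ℕ → ℕ} (h : TR y f) (hy : TLE y y') : TR y' f :=
  Pool.Agent.Helper56WM.TR.mono h hy

theorem Computes.mono {y y' : ℕ → Bool} {C : ℕ → List (List Bool)} (h : Computes y C)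
    (hy : TLE y y') : Computes y' C := TRmono (f := fun k => Encodable.encode (C k)) h hy

theorem Captures.mono {y y' : ℕ → Bool} {S S' : Set (ℕ → Bool)} (h : Captures y S)
    (hy : TLE y y') (hS : S' ⊆ S) : Captures y' S' := by
  obtain ⟨C, hC, hyC, hSC⟩ := h
  exact ⟨C, hC, hyC.mono hy, hS.trans hSC⟩

theorem exists_computes (C : ℕ → List (List Bool)) : ∃ z, ∀ y, TLE z y → Computes y C :=
  Pool.Agent.Helper56TB.exists_code_fun fun k => Encodable.encode (C k)

theorem reach_mono {E : Set (ℕ → Bool)} {h : (ℕ → Bool) → Set (ℕ → Bool)} {y y' : ℕ → Bool}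
    (hy : TLE y y') : Reach E h y ⊆ Reach E h y' := fun _ hx => ⟨hx.1, hx.2.mono hy subset_rfl⟩

theorem turingInvariant_uncovered (E : Set (ℕ → Bool)) (h : (ℕ → Bool) → Set (ℕ → Bool)) :
    TuringInvariant (Uncovered E h) := by
  intro x y hxy hyx hx hy
  exact hx (Captures.mono hy hyx (reach_mono hxy))

/-! ### the union of all null sets with a test computable from a given real -/

/-- the union of the null sets with a test computable from `z` -/
def NN (z : ℕ → Bool) : Set (ℕ → Bool) := ⋃ C ∈ {C | IsTest C ∧ Computes z C}, Nl C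

theorem mem_NN {z x : ℕ → Bool} : x ∈ NN z ↔ ∃ C, IsTest C ∧ Computes z C ∧ x ∈ Nl C := by
  simp [NN, and_assoc]

theorem countable_computes (z : ℕ → Bool) : {C | IsTest C ∧ Computes z C}.Countable := by
  have h1 : {C | IsTest C ∧ Computes z C} ⊆ ⋃ c : OCode,
      {C | ∀ k, Encodable.encode (C k) ∈ eval (chi z) c k} := by
    rintro C ⟨-, hC⟩
    obtain ⟨c, hc⟩ := exists_code hC
    refine Set.mem_iUnion.2 ⟨c, fun k => ?_⟩
    rw [hc]
    exact Part.mem_some _
  refine (Set.countable_iUnion fun c => ?_).mono h1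
  refine Set.Subsingleton.countable ?_
  intro C hC C' hC'
  funext k
  exact Encodable.encode_injective (Part.mem_unique (hC k) (hC' k))

theorem coin_biUnion {A : Set (ℕ → List (List Bool))} (hA : A.Countable)
    (h : ∀ C ∈ A, IsTest C) : coin (⋃ C ∈ A, Nl C) = 0 :=
  (measure_biUnion_null_iff hA).2 fun C hC => coin_Nl (h C hC)

theorem coin_NN (z : ℕ → Bool) : coin (NN z) = 0 :=
  coin_biUnion (countable_computes z) fun _ hC => hC.1

theorem Captures.subset_NN {y : ℕ → Bool} {S : Set (ℕ → Bool)} (h : Captures y S) :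
    S ⊆ NN y := by
  obtain ⟨C, hC, hyC, hS⟩ := h
  exact fun x hx => mem_NN.2 ⟨C, hC, hyC, hS hx⟩

/-! ### computability of the regrouped sequence -/

theorem computes_regroup {z : ℕ → Bool} {U : ℕ → List (List Bool)} (hU : Computes z U) :
    Computes z (regroup U) := by
  have hdec : Primrec fun m : ℕ => (Encodable.decode m : Option (List (List Bool))).getD [] :=
    Primrec.option_getD.comp Primrec.decode (Primrec.const [])
  have h1 : TR z fun k => Encodable.encode (U (2 * k + 1)) :=
    TR.comp (f := fun k => Encodable.encode (U k)) hU (TR.prim (Primrec.nat_add.comp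
      (Primrec.nat_mul.comp (Primrec.const 2) Primrec.id) (Primrec.const 1)))
  have h2 : TR z fun k => Encodable.encode (U (2 * k + 2)) :=
    TR.comp (f := fun k => Encodable.encode (U k)) hU (TR.prim (Primrec.nat_add.comp
      (Primrec.nat_mul.comp (Primrec.const 2) Primrec.id) (Primrec.const 2)))
  have h6 : Primrec fun m : ℕ => Encodable.encode
      ((Encodable.decode m.unpair.1 : Option (List (List Bool))).getD [] ++
        (Encodable.decode m.unpair.2 : Option (List (List Bool))).getD []) :=
    Primrec.encode.comp (Primrec.list_append.comp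
      (hdec.comp (Primrec.fst.comp Primrec.unpair)) (hdec.comp (Primrec.snd.comp Primrec.unpair)))
  have h7 := (TR.prim (x := z) h6).comp (h1.pair h2)
  change TR z fun k => Encodable.encode (regroup U k)
  simpa [regroup] using h7

end Pool.Agent.Helper56WN
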