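import Mathlib
import Pool.Agent.Helper56_WN.Codes
import Pool.Agent.Helper55_AX.Min

/-!
# Fusion: a subtree on which the null sets coded by the values of a functional are all contained
in one null set
-/

set_option autoImplicit false

namespace Pool.Agent.Helper56WN

open Pool.Agent.Helper25TD Pool.Agent.Helper55AX
open Pool.Agent.Helper56WM (Loc)

/-- the string `s` forces that the functional `c` has the value `v` at `k` -/
def WN (c : OCode) (s : List Bool) (k v : ℕ) : Prop := ∀ x, Ext s x → v ∈ eval (chi x) c k

theorem WN.mono {c : OCode} {s t : List Bool} {k v : ℕ} (h : WN c s k v) (hst : s <+: t) :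
    WN c t k v := fun x hx => h x (hx.of_prefix hst)

/-- the test used in the search -/
def Hit (c : OCode) (g : List Bool → List Bool) (r : List Bool) (k n : ℕ) : Prop :=
  ∃ q : List Bool × List (List Bool), Encodable.decode n = some q ∧
    WN c (g (r ++ q.1)) k (Encodable.encode q.2)

/-- the first extension of `r` that forces a value of the functional at `k` -/
noncomputable def sel (c : OCode) (g : List Bool → List Bool) (r : List Bool) (k : ℕ) :
    List Bool × List (List Bool) :=
  (Encodable.decode (sInf {n | Hit c g r k n})).getD ([], [])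

/-- the functional can be made total on a subtree -/
def Tot (c : OCode) (g : List Bool → List Bool) : Prop :=
  ∀ r k, ∃ p u, WN c (g (r ++ p)) k (Encodable.encode (u : List (List Bool)))

theorem Tot.exists_hit {c : OCode} {g : List Bool → List Bool} (h : Tot c g) (r : List Bool)
    (k : ℕ) : ∃ n, Hit c g r k n := by
  obtain ⟨p, u, hpu⟩ := h r k
  exact ⟨Encodable.encode (p, u), (p, u), Encodable.encodek _, hpu⟩

theorem Tot.sel_spec {c : OCode} {g : List Bool → List Bool} (h : Tot c g) (r : List Bool)
    (k : ℕ) : WN c (g (r ++ (sel c g r k).1)) k (Encodable.encode (sel c g r k).2) := by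
  obtain ⟨q, hq, h1⟩ : Hit c g r k (sInf {n | Hit c g r k n}) :=
    Nat.sInf_mem (s := {n | Hit c g r k n}) (h.exists_hit r k)
  unfold sel
  rw [hq]
  exact h1

/-- the nodes at level `k` before the extension -/
noncomputable def base (c : OCode) (g : List Bool → List Bool) : ℕ → List Bool → List Bool
  | 0 => fun _ => []
  | k + 1 => fun σ => (base c g k (σ.take k) ++ (sel c g (base c g k (σ.take k)) k).1) ++ σ.drop k

/-- the nodes at level `k` after the extension -/
noncomputable def lev (c : OCode) (g : List Bool → List Bool) (k : ℕ) (σ : List Bool) :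
    List Bool := base c g k σ ++ (sel c g (base c g k σ) k).1

theorem base_succ (c : OCode) (g : List Bool → List Bool) (k : ℕ) (σ : List Bool) :
    base c g (k + 1) σ = lev c g k (σ.take k) ++ σ.drop k := rfl

/-- the subtree -/
noncomputable def hfu (c : OCode) (g : List Bool → List Bool) (σ : List Bool) : List Bool :=
  lev c g σ.length σ

/-- the values at level `k` -/
noncomputable def Uval (c : OCode) (g : List Bool → List Bool) (k : ℕ) : List (List Bool) :=
  (full k).flatMap fun σ => trim k (sel c g (base c g k σ) k).2

/-- the code of the null set -/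
noncomputable def Cfu (c : OCode) (g : List Bool → List Bool) : ℕ → List (List Bool) :=
  regroup (Uval c g)

theorem wt_Uval (c : OCode) (g : List Bool → List Bool) (k : ℕ) :
    wt (Uval c g k) ≤ (1 / 2) ^ k := by
  have h1 : ∀ l : List (List Bool), wt (l.flatMap fun σ => trim k (sel c g (base c g k σ) k).2) ≤
      l.length * (1 / 4) ^ k := by
    intro l
    induction l with
    | nil => simp [wt_nil]
    | cons a l ih =>
      rw [List.flatMap_cons, wt_append, List.length_cons]
      have := wt_trim k (sel c g (base c g k a) k).2
      push_cast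
      nlinarith
  refine (h1 (full k)).trans ?_
  rw [length_full]
  push_cast
  rw [← mul_pow]
  norm_num

theorem isTest_Cfu (c : OCode) (g : List Bool → List Bool) : IsTest (Cfu c g) :=
  isTest_regroup (wt_Uval c g)

theorem hfu_append (c : OCode) (g : List Bool → List Bool) (s : List Bool) (b : Bool) :
    hfu c g s ++ [b] <+: hfu c g (s ++ [b]) := by
  have h1 : hfu c g (s ++ [b]) = base c g (s.length + 1) (s ++ [b]) ++
      (sel c g (base c g (s.length + 1) (s ++ [b])) (s.length + 1)).1 := by
    unfold hfu lev
    rw [List.length_append, List.length_singleton]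
  rw [h1, base_succ]
  have h2 : (s ++ [b]).take s.length = s := by simp
  have h3 : (s ++ [b]).drop s.length = [b] := by simp
  rw [h2, h3]
  exact List.prefix_append _ _

theorem isTree_hfu (c : OCode) (g : List Bool → List Bool) : IsTree (hfu c g) := by
  refine ⟨fun s t => ?_, fun s x h1 h2 => ?_⟩
  · induction t using List.reverseRecOn with
    | nil => rw [List.append_nil]
    | append_singleton t b ih =>
      rw [← List.append_assoc]
      exact ih.trans ((List.prefix_append _ _).trans (hfu_append c g (s ++ t) b))
  · have h3 := h1.of_prefix (hfu_append c g s true)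
    have h4 := h2.of_prefix (hfu_append c g s false)
    exact (isTree_append (hfu c g s)).split [] x (by simpa using h3) (by simpa using h4)

theorem Tot.fusion {c : OCode} {g : List Bool → List Bool} (hg : IsTree g) (h : Tot c g)
    (a : ℕ → Bool) {C : ℕ → List (List Bool)} (hCt : IsTest C)
    (hC : ∀ k, Encodable.encode (C k) ∈ eval (chi (G (fun s => g (hfu c g s)) a)) c k) :
    Nl C ⊆ Nl (Cfu c g) := by
  intro x hx
  refine mem_regroup fun N => ?_
  obtain ⟨k, hk, s, hs, hxs⟩ := hx N
  refine ⟨k, hk, s, ?_, hxs⟩
  have h3 : hfu c g (pre a k) = base c g k (pre a k) ++ (sel c g (base c g k (pre a k)) k).1 := by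
    unfold hfu lev
    rw [length_pre]
  have h2 := h.sel_spec (base c g k (pre a k)) k
  rw [← h3] at h2
  have h4 := h2 _ ((hg.comp (isTree_hfu c g)).ext_G a k)
  have h5 : (sel c g (base c g k (pre a k)) k).2 = C k :=
    Encodable.encode_injective (Part.mem_unique h4 (hC k))
  refine List.mem_flatMap.2 ⟨pre a k, ?_, ?_⟩
  · rw [mem_full, length_pre]
  · rw [h5, trim_eq (hCt k)]
    exact hs

/-! ### locality -/

theorem loc_sel {ι : Type*} {c : OCode} {g : ι → List Bool → List Bool} (h : ∀ i, Tot c (g i))
    (r : List Bool) (k : ℕ) : Loc (fun i => cg (g i)) fun i => sel c (g i) r k := by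
  refine Loc.map (F := fun i => sInf {n | Hit c (g i) r k n}) ?_
    fun n => (Encodable.decode n : Option (List Bool × List (List Bool))).getD ([], [])
  refine Loc.search (fun n => ?_) fun i => (h i).exists_hit r k
  cases hq : (Encodable.decode n : Option (List Bool × List (List Bool))) with
  | none =>
    have : (fun i => Hit c (g i) r k n) = fun _ => False := by
      funext i
      simp [Hit, hq]
    rw [this]
    exact Loc.const _ _
  | some q =>
    have : (fun i => Hit c (g i) r k n) = fun i =>
        WN c (g i (r ++ q.1)) k (Encodable.encode q.2) := by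
      funext i
      simp [Hit, hq]
    rw [this]
    exact (Pool.Agent.Helper56WM.Loc.cg_apply g (r ++ q.1)).map
      fun s => WN c s k (Encodable.encode q.2)

theorem loc_base {ι : Type*} {c : OCode} {g : ι → List Bool → List Bool} (h : ∀ i, Tot c (g i))
    (k : ℕ) (σ : List Bool) : Loc (fun i => cg (g i)) fun i => base c (g i) k σ := by
  induction k generalizing σ with
  | zero => exact Loc.const _ _
  | succ k ih =>
    refine Loc.map (F := fun i => base c (g i) k (σ.take k) ++
      (sel c (g i) (base c (g i) k (σ.take k)) k).1) ?_ fun r => r ++ σ.drop k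
    refine Loc.bind (F := fun i => base c (g i) k (σ.take k))
      (H := fun i r => r ++ (sel c (g i) r k).1) (ih _) fun r => ?_
    exact (loc_sel h r k).map fun q => r ++ q.1

theorem loc_lev {ι : Type*} {c : OCode} {g : ι → List Bool → List Bool} (h : ∀ i, Tot c (g i))
    (k : ℕ) (σ : List Bool) : Loc (fun i => cg (g i)) fun i => lev c (g i) k σ :=
  Loc.bind (F := fun i => base c (g i) k σ) (H := fun i r => r ++ (sel c (g i) r k).1)
    (loc_base h k σ) fun r => (loc_sel h r k).map fun q => r ++ q.1

theorem loc_Uval {ι : Type*} {c : OCode} {g : ι → List Bool → List Bool} (h : ∀ i, Tot c (g i))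
    (k : ℕ) : Loc (fun i => cg (g i)) fun i => Uval c (g i) k := by
  unfold Uval
  have key : ∀ l : List (List Bool), Loc (fun i => cg (g i)) fun i =>
      l.flatMap fun σ => trim k (sel c (g i) (base c (g i) k σ) k).2 := by
    intro l
    induction l with
    | nil => exact Loc.const _ _
    | cons a l ih =>
      have h1 : Loc (fun i => cg (g i)) fun i => trim k (sel c (g i) (base c (g i) k a) k).2 :=
        Loc.bind (F := fun i => base c (g i) k a) (H := fun i r => trim k (sel c (g i) r k).2)
          (loc_base h k a) fun r => (loc_sel h r k).map fun q => trim k q.2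
      simp only [List.flatMap_cons]
      exact h1.map₂ ih fun u v => u ++ v
  exact key (full k)

/-- the subtree and the code are computable relative to a fixed real -/
theorem exists_fusion_oracle (c : OCode) : ∃ Z : ℕ → Bool, ∀ g, Tot c g → ∀ J, TLE (cg g) J →
    TLE Z J → TLE (cg fun s => g (hfu c g s)) J ∧ Computes J (Cfu c g) := by
  obtain ⟨Z1, h1⟩ := Pool.Agent.Helper56WM.Loc.exists_cg (ι := {g // Tot c g}) (fun i => cg i.1)
    (fun i s => i.1 (hfu c i.1 s)) (fun s => by
      refine Loc.bind (F := fun i : {g // Tot c g} => hfu c i.1 s) (H := fun i r => i.1 r) ?_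
        fun r => Pool.Agent.Helper56WM.Loc.cg_apply (fun i : {g // Tot c g} => i.1) r
      exact loc_lev (g := fun i : {g // Tot c g} => i.1) (fun i => i.2) s.length s)
  obtain ⟨Z2, h2⟩ := Pool.Agent.Helper56WM.Loc.exists_TR (ι := {g // Tot c g})
    (fun i => cg i.1)
    (fun i k => Encodable.encode (Uval c i.1 k)) (fun k =>
      (loc_Uval (g := fun i : {g // Tot c g} => i.1) (fun i => i.2) k).map Encodable.encode)
  exact ⟨join Z1 Z2, fun g hg J hgJ hJ => ⟨h1 ⟨g, hg⟩ J hgJ ((TLE.join_left _ _).trans hJ),
    computes_regroup (h2 ⟨g, hg⟩ J hgJ ((TLE.join_right _ _).trans hJ))⟩⟩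

end Pool.Agent.Helper56WN
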