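import Mathlib
import Pool.Agent.Helper56_WN.Codes
import Pool.Agent.Helper56_WM.Dominate

/-!
# Extending a finite sequence of lists so that all values of all functionals are decided
-/

set_option autoImplicit false

namespace Pool.Agent.Helper56WN

open Pool.Agent.Helper25TD Pool.Agent.Helper55AX
open Pool.Agent.Helper56WM (grf TR_of_grf)

/-! ### countable sets closed under countably many operations -/

theorem exists_hull {F I : Type*} [Countable I] (op : I → F → F → F → F) (f0 : F) :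
    ∃ A : Set F, A.Countable ∧ f0 ∈ A ∧ ∀ i, ∀ a ∈ A, ∀ b ∈ A, ∀ c ∈ A, op i a b c ∈ A := by
  let S : ℕ → Set F := fun n => Nat.rec {f0}
    (fun _ T => T ∪ ⋃ i, (fun p : F × F × F => op i p.1 p.2.1 p.2.2) '' (T ×ˢ T ×ˢ T)) n
  have hS : ∀ n, S (n + 1) = S n ∪ ⋃ i, (fun p : F × F × F => op i p.1 p.2.1 p.2.2) ''
      (S n ×ˢ S n ×ˢ S n) := fun n => rfl
  have hc : ∀ n, (S n).Countable := by
    intro n
    induction n with
    | zero => exact Set.countable_singleton f0
    | succ n ih =>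
      rw [hS]
      exact ih.union (Set.countable_iUnion fun i => (ih.prod (ih.prod ih)).image _)
  have hmono : Monotone S := monotone_nat_of_le_succ fun n => by
    rw [hS]
    exact Set.subset_union_left
  refine ⟨⋃ n, S n, Set.countable_iUnion hc, Set.mem_iUnion.2 ⟨0, Set.mem_singleton f0⟩, ?_⟩
  intro i a ha b hb c hc
  obtain ⟨n1, h1⟩ := Set.mem_iUnion.1 ha
  obtain ⟨n2, h2⟩ := Set.mem_iUnion.1 hb
  obtain ⟨n3, h3⟩ := Set.mem_iUnion.1 hc
  refine Set.mem_iUnion.2 ⟨max n1 (max n2 n3) + 1, ?_⟩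
  rw [hS]
  refine Or.inr (Set.mem_iUnion.2 ⟨i, (a, b, c), ⟨?_, ?_, ?_⟩, rfl⟩)
  · exact hmono (le_max_left _ _) h1
  · exact hmono ((le_max_left _ _).trans (le_max_right _ _)) h2
  · exact hmono ((le_max_right _ _).trans (le_max_right _ _)) h3

/-! ### the trimmed values of a functional -/

/-- the graph of a sequence of lists -/
noncomputable def gr (C : ℕ → List (List Bool)) : ℕ → Bool :=
  grf fun k => Encodable.encode (C k)

theorem gr_congr {C C' : ℕ → List (List Bool)} {n m : ℕ} (h : ∀ j < n, C' j = C j)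
    (hm : m < n) : gr C' m = gr C m := by
  classical
  have h1 := h _ ((Nat.unpair_left_le m).trans_lt hm)
  simp only [gr, grf, h1]

/-- the functional `c` with oracle `join z (gr H)` has the value `u` at `n` -/
def Val (z : ℕ → Bool) (c : OCode) (H : ℕ → List (List Bool)) (n : ℕ) (u : List (List Bool)) :
    Prop := Encodable.encode u ∈ eval (chi (join z (gr H))) c n

theorem Val.unique {z : ℕ → Bool} {c : OCode} {H : ℕ → List (List Bool)} {n : ℕ}
    {u v : List (List Bool)} (hu : Val z c H n u) (hv : Val z c H n v) : u = v :=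
  Encodable.encode_injective (Part.mem_unique hu hv)

/-- the trimmed value of the functional -/
noncomputable def V (z : ℕ → Bool) (c : OCode) (H : ℕ → List (List Bool)) (n : ℕ) :
    List (List Bool) := by
  classical
  exact if h : ∃ u, Val z c H n u then trim n h.choose else []

theorem V_eq {z : ℕ → Bool} {c : OCode} {H : ℕ → List (List Bool)} {n : ℕ}
    {u : List (List Bool)} (h : Val z c H n u) : V z c H n = trim n u := by
  classical
  have h1 : ∃ u, Val z c H n u := ⟨u, h⟩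
  unfold V
  rw [dif_pos h1, h1.choose_spec.unique h]

theorem V_none {z : ℕ → Bool} {c : OCode} {H : ℕ → List (List Bool)} {n : ℕ}
    (h : ¬ ∃ u, Val z c H n u) : V z c H n = [] := by
  classical
  unfold V
  rw [dif_neg h]

theorem isTest_V (z : ℕ → Bool) (c : OCode) (H : ℕ → List (List Bool)) : IsTest (V z c H) := by
  intro n
  by_cases h : ∃ u, Val z c H n u
  · obtain ⟨u, hu⟩ := h
    rw [V_eq hu]
    exact wt_trim n u
  · rw [V_none h, wt_nil]
    positivity

theorem Val.exists_use {z : ℕ → Bool} {c : OCode} {H : ℕ → List (List Bool)} {n : ℕ}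
    {u : List (List Bool)} (h : Val z c H n u) :
    ∃ N, ∀ H' : ℕ → List (List Bool), (∀ k < N, H' k = H k) → Val z c H' n u := by
  obtain ⟨N, hN⟩ := use_principle _ c _ _ h
  refine ⟨N, fun H' hH' => hN _ fun i hi => ?_⟩
  unfold join
  split_ifs
  · rfl
  · exact gr_congr (n := N) hH' (by omega)

/-! ### conditions -/

/-- `H` agrees with `h` below `d` -/
def AgreeB (d : ℕ) (h H : ℕ → List (List Bool)) : Prop := ∀ k < d, H k = h k

/-- from `d` on, the lists of `H` contain those of `P` and are of small weight -/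
def Allow (P : ℕ → List (List Bool)) (d : ℕ) (H : ℕ → List (List Bool)) : Prop :=
  ∀ k ≥ d, (∀ s ∈ P k, s ∈ H k) ∧ wt (H k) ≤ (1 / 4) ^ k

theorem Allow.mono {P H : ℕ → List (List Bool)} {d d' : ℕ} (h : Allow P d H) (hd : d ≤ d') :
    Allow P d' H := fun k hk => h k (hd.trans hk)

theorem Allow.patch {P h H : ℕ → List (List Bool)} {d d' : ℕ} (h1 : Allow P d h)
    (h2 : AgreeB d' h H) (h3 : Allow P d' H) : Allow P d H := by
  intro k hk
  rcases Nat.lt_or_ge k d' with h4 | h4
  · rw [h2 k h4]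
    exact h1 k hk
  · exact h3 k h4

/-- all trimmed values of all functionals are decided by a finite part of `h` -/
def Dec (z : ℕ → Bool) (P h : ℕ → List (List Bool)) : Prop :=
  ∀ c n, ∃ d, Allow P d h ∧ ∀ H', AgreeB d h H' → Allow P d H' → V z c H' n = V z c h n

theorem fusion_limit {α : Type*} (H : ℕ → ℕ → α) (κ : ℕ → ℕ) (h1 : ∀ m, κ m < κ (m + 1))
    (h2 : ∀ m, ∀ k < κ m, H (m + 1) k = H m k) : ∃ g : ℕ → α, ∀ m, ∀ k < κ m, g k = H m k := by
  have hmono : StrictMono κ := strictMono_nat_of_lt_succ h1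
  have h3 : ∀ m n, m ≤ n → ∀ k < κ m, H n k = H m k := by
    intro m n hmn
    induction hmn with
    | refl => exact fun _ _ => rfl
    | @step n hmn ih =>
      intro k hk
      rw [h2 n k (hk.trans_le (hmono.monotone hmn)), ih k hk]
  refine ⟨fun k => H (k + 1) k, fun m k hk => ?_⟩
  have h4 : k < κ (k + 1) := (Nat.lt_succ_self k).trans_le hmono.le_apply
  rcases le_total m (k + 1) with h | h
  · exact h3 m (k + 1) h k hk
  · exact (h3 (k + 1) m h k h4).symm

theorem dec_step (z : ℕ → Bool) {P h : ℕ → List (List Bool)} {κ κ' : ℕ} (hκ : κ ≤ κ')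
    (hh : Allow P κ h) (c : OCode) (n : ℕ) :
    ∃ h' κ'', κ' < κ'' ∧ AgreeB κ' h h' ∧ Allow P κ h' ∧
      ∀ H', AgreeB κ'' h' H' → Allow P κ'' H' → V z c H' n = V z c h' n := by
  by_cases h1 : ∃ H u, AgreeB κ' h H ∧ Allow P κ' H ∧ Val z c H n u
  · obtain ⟨H, u, h2, h3, h4⟩ := h1
    obtain ⟨N, hN⟩ := h4.exists_use
    refine ⟨H, max (κ' + 1) N, by omega, h2, hh.patch h2 h3, fun H' h5 _ => ?_⟩
    rw [V_eq h4, V_eq (hN H' fun k hk => h5 k (hk.trans_le (le_max_right _ _)))]
  · push Not at h1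
    refine ⟨h, κ' + 1, by omega, fun _ _ => rfl, hh, fun H' h5 h6 => ?_⟩
    have h7 : AgreeB κ' h H' := fun k hk => h5 k (hk.trans (Nat.lt_succ_self _))
    have h8 : Allow P κ' H' := (hh.mono hκ).patch h5 h6
    rw [V_none fun ⟨u, hu⟩ => h1 H' u h7 h8 hu,
      V_none fun ⟨u, hu⟩ => h1 h u (fun _ _ => rfl) (hh.mono hκ) hu]

theorem exists_ext (z : ℕ → Bool) {P : ℕ → List (List Bool)} (hP : IsTest P)
    (h : ℕ → List (List Bool)) (κ : ℕ) :
    ∃ g, AgreeB κ h g ∧ Allow P κ g ∧ Dec z P g := by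
  classical
  obtain ⟨e, he⟩ : ∃ e : ℕ → OCode × ℕ, Function.Surjective e := by
    have : Nonempty (OCode × ℕ) := ⟨(OCode.zero, 0)⟩
    exact exists_surjective_nat _
  have step : ∀ m (s : {s : (ℕ → List (List Bool)) × ℕ // κ ≤ s.2 ∧ Allow P κ s.1}),
      ∃ s' : {s : (ℕ → List (List Bool)) × ℕ // κ ≤ s.2 ∧ Allow P κ s.1},
        s.1.2 < s'.1.2 ∧ AgreeB s.1.2 s.1.1 s'.1.1 ∧
        ∀ H', AgreeB s'.1.2 s'.1.1 H' → Allow P s'.1.2 H' →
          V z (e m).1 H' (e m).2 = V z (e m).1 s'.1.1 (e m).2 := by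
    rintro m ⟨⟨H, κ'⟩, h1, h2⟩
    obtain ⟨h', κ'', h3, h4, h5, h6⟩ := dec_step z h1 h2 (e m).1 (e m).2
    exact ⟨⟨(h', κ''), h1.trans h3.le, h5⟩, h3, h4, h6⟩
  choose Φ h1 h2 h3 using step
  let s0 : {s : (ℕ → List (List Bool)) × ℕ // κ ≤ s.2 ∧ Allow P κ s.1} :=
    ⟨(fun k => if k < κ then h k else P k, κ), le_rfl, fun k hk => by
      have : ¬ k < κ := by omega
      simp only [this, if_false]
      exact ⟨fun s hs => hs, hP k⟩⟩
  let st : ℕ → {s : (ℕ → List (List Bool)) × ℕ // κ ≤ s.2 ∧ Allow P κ s.1} :=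
    fun m => Nat.rec s0 Φ m
  have hst : ∀ m, st (m + 1) = Φ m (st m) := fun m => rfl
  have hlt : ∀ m, (st m).1.2 < (st (m + 1)).1.2 := fun m => by
    rw [hst]
    exact h1 m (st m)
  have hmono : StrictMono fun m => (st m).1.2 := strictMono_nat_of_lt_succ hlt
  obtain ⟨g, hg⟩ := fusion_limit (fun m => (st m).1.1) (fun m => (st m).1.2) hlt fun m k hk => by
    have := h2 m (st m) k hk
    rw [← hst] at this
    exact this
  have hgA : Allow P κ g := by
    intro k hk
    have h4 : k < (st (k + 1)).1.2 := (Nat.lt_succ_self k).trans_le hmono.le_apply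
    rw [hg (k + 1) k h4]
    exact (st (k + 1)).2.2 k hk
  refine ⟨g, fun k hk => ?_, hgA, fun c n => ?_⟩
  · rw [hg 0 k hk]
    change (if k < κ then h k else P k) = h k
    rw [if_pos hk]
  · obtain ⟨m, hm⟩ := he (c, n)
    have h4 := h3 m (st m)
    rw [← hst, hm] at h4
    have hge : κ ≤ (st (m + 1)).1.2 := (st (m + 1)).2.1
    refine ⟨(st (m + 1)).1.2, hgA.mono hge, fun H' h5 h6 => ?_⟩
    rw [h4 H' (fun k hk => (h5 k hk).trans (hg (m + 1) k hk)) h6,
      h4 g (hg (m + 1)) (hgA.mono hge)]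

end Pool.Agent.Helper56WN
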