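import Mathlib
import Pool.Agent.Helper56_WN.Avoid

/-!
# A real that captures countably many given null sets, but does not capture a given point
-/

set_option autoImplicit false

namespace Pool.Agent.Helper56WN

open Pool.Agent.Helper25TD Pool.Agent.Helper55AX
open Pool.Agent.Helper56WM (grf TR_of_grf)

theorem Dec.exists_kap {z : ℕ → Bool} {P h : ℕ → List (List Bool)} (hd : Dec z P h)
    (ec : ℕ → OCode) (i : ℕ) : ∃ D, i ≤ D ∧ Allow P D h ∧ ∀ c ≤ i, ∀ n ≤ i, ∀ H',
      AgreeB D h H' → Allow P D H' → V z (ec c) H' n = V z (ec c) h n := by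
  choose d h1 h2 using hd
  let D := i + ∑ c ∈ Finset.range (i + 1), ∑ n ∈ Finset.range (i + 1), d (ec c) n
  have hD : ∀ c ≤ i, ∀ n ≤ i, d (ec c) n ≤ D := by
    intro c hc n hn
    have h3 : d (ec c) n ≤ ∑ n ∈ Finset.range (i + 1), d (ec c) n :=
      Finset.single_le_sum (f := fun n => d (ec c) n) (fun _ _ => Nat.zero_le _)
        (Finset.mem_range.2 (by omega))
    have h4 : ∑ n ∈ Finset.range (i + 1), d (ec c) n ≤
        ∑ c ∈ Finset.range (i + 1), ∑ n ∈ Finset.range (i + 1), d (ec c) n :=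
      Finset.single_le_sum (f := fun c => ∑ n ∈ Finset.range (i + 1), d (ec c) n)
        (fun _ _ => Nat.zero_le _) (Finset.mem_range.2 (by omega))
    exact (h3.trans h4).trans (Nat.le_add_left _ _)
  refine ⟨D, Nat.le_add_right _ _, (h1 (ec 0) 0).mono (hD 0 (Nat.zero_le _) 0 (Nat.zero_le _)),
    fun c hc n hn H' h5 h6 => ?_⟩
  have h7 := hD c hc n hn
  refine h2 (ec c) n H' (fun k hk => h5 k (hk.trans_le h7)) ?_
  exact (h1 (ec c) n).patch h5 h6

/-- the chosen extension -/
noncomputable def gext (z : ℕ → Bool) (P h : ℕ → List (List Bool)) (κ : ℕ) :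
    ℕ → List (List Bool) := by
  classical
  exact if hP : IsTest P then (exists_ext z hP h κ).choose else fun _ => []

theorem gext_spec (z : ℕ → Bool) {P : ℕ → List (List Bool)} (hP : IsTest P)
    (h : ℕ → List (List Bool)) (κ : ℕ) :
    AgreeB κ h (gext z P h κ) ∧ Allow P κ (gext z P h κ) ∧ Dec z P (gext z P h κ) := by
  classical
  unfold gext
  rw [dif_pos hP]
  exact (exists_ext z hP h κ).choose_spec

/-- the chosen number -/
noncomputable def kap (z : ℕ → Bool) (ec : ℕ → OCode) (P h : ℕ → List (List Bool)) (i : ℕ) :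
    ℕ := by
  classical
  exact if hd : Dec z P h then (hd.exists_kap ec i).choose else 0

theorem kap_spec {z : ℕ → Bool} {P h : ℕ → List (List Bool)} (hd : Dec z P h)
    (ec : ℕ → OCode) (i : ℕ) : i ≤ kap z ec P h i ∧ Allow P (kap z ec P h i) h ∧
      ∀ c ≤ i, ∀ n ≤ i, ∀ H', AgreeB (kap z ec P h i) h H' → Allow P (kap z ec P h i) H' →
        V z (ec c) H' n = V z (ec c) h n := by
  classical
  unfold kap
  rw [dif_pos hd]
  exact (hd.exists_kap ec i).choose_spec

/-- the family of extensions -/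
noncomputable def fam (z : ℕ → Bool) (ec : ℕ → OCode) (P P' h : ℕ → List (List Bool)) (i : ℕ) :
    ℕ → List (List Bool) := gext z P' h (kap z ec P h i)

/-- the union of the values of the functional along the family -/
noncomputable def Uc (z : ℕ → Bool) (ec : ℕ → OCode) (P P' h : ℕ → List (List Bool))
    (c n : ℕ) : List (List Bool) :=
  if c ≤ n then (List.range n).flatMap fun i => V z (ec c) (fam z ec P P' h i) n else []

theorem wt_Uc (z : ℕ → Bool) (ec : ℕ → OCode) (P P' h : ℕ → List (List Bool)) (c n : ℕ) :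
    wt (Uc z ec P P' h c n) ≤ (1 / 2) ^ n := by
  unfold Uc
  split_ifs with hc
  · have h1 : ∀ l : List ℕ, wt (l.flatMap fun i => V z (ec c) (fam z ec P P' h i) n) ≤
        l.length * (1 / 4) ^ n := by
      intro l
      induction l with
      | nil => simp [wt_nil]
      | cons a l ih =>
        rw [List.flatMap_cons, wt_append, List.length_cons]
        have := isTest_V z (ec c) (fam z ec P P' h a) n
        push_cast
        nlinarith
    refine (h1 _).trans ?_
    rw [List.length_range]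
    have h2 : (n : ℝ) ≤ 2 ^ n := by exact_mod_cast Nat.lt_two_pow_self.le
    have h3 : (1 / 2 : ℝ) ^ n = 2 ^ n * (1 / 4) ^ n := by
      rw [← mul_pow]
      norm_num
    rw [h3]
    gcongr
  · rw [wt_nil]
    positivity

/-- adding the test `C` to the promise -/
def promise (P C : ℕ → List (List Bool)) (j k : ℕ) : List (List Bool) := P k ++ C (k + j + 1)

/-- the room left for further promises -/
def Slack (P : ℕ → List (List Bool)) (j : ℕ) : Prop :=
  ∀ k, wt (P k) + (1 / 4 : ℝ) ^ (k + j) ≤ (1 / 4) ^ k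

theorem Slack.isTest {P : ℕ → List (List Bool)} {j : ℕ} (h : Slack P j) : IsTest P := by
  intro k
  have h1 := h k
  have h2 : (0 : ℝ) ≤ (1 / 4 : ℝ) ^ (k + j) := by positivity
  linarith

theorem Slack.promise {P C : ℕ → List (List Bool)} {j : ℕ} (h : Slack P j) (hC : IsTest C) :
    Slack (promise P C j) (j + 1) := by
  intro k
  unfold Pool.Agent.Helper56WN.promise
  rw [wt_append]
  have h1 := h k
  have h2 := hC (k + j + 1)
  have h3 : (1 / 4 : ℝ) ^ (k + j + 1) = (1 / 4 : ℝ) ^ (k + j) * (1 / 4) := pow_succ _ _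
  have h4 : (0 : ℝ) ≤ (1 / 4 : ℝ) ^ (k + j) := by positivity
  rw [← add_assoc k j 1]
  rw [h3] at h2 ⊢
  linarith

theorem Allow.of_promise {P C H : ℕ → List (List Bool)} {j d : ℕ}
    (h : Allow (promise P C j) d H) : Allow P d H := fun k hk =>
  ⟨fun s hs => (h k hk).1 s (List.mem_append_left _ hs), (h k hk).2⟩

/-- a set that is closed under the operations of the construction -/
structure Closed (z : ℕ → Bool) (ec : ℕ → OCode) (A : Set (ℕ → List (List Bool))) : Prop where
  nil : (fun _ => []) ∈ A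
  promise : ∀ P ∈ A, ∀ C ∈ A, ∀ j, promise P C j ∈ A
  fam : ∀ P ∈ A, ∀ P' ∈ A, ∀ h ∈ A, ∀ i, fam z ec P P' h i ∈ A
  uc : ∀ P ∈ A, ∀ P' ∈ A, ∀ h ∈ A, ∀ c, regroup (Uc z ec P P' h c) ∈ A
  v : ∀ h ∈ A, ∀ c, V z (ec c) h ∈ A
  ext : ∀ P ∈ A, ∀ h ∈ A, ∀ κ, gext z P h κ ∈ A

theorem exists_closed (z : ℕ → Bool) (ec : ℕ → OCode) : ∃ A, A.Countable ∧ Closed z ec A := by
  obtain ⟨A, h1, h2, h3⟩ := exists_hull (F := ℕ → List (List Bool)) (I := ℕ × Fin 5)
    (fun i a b c => match i with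
      | (n, 0) => promise a b n
      | (n, 1) => fam z ec a b c n
      | (n, 2) => regroup (Uc z ec a b c n)
      | (n, 3) => V z (ec n) a
      | (n, 4) => gext z a b n) (fun _ => [])
  exact ⟨A, h1, h2, fun P hP C hC j => h3 (j, 0) P hP C hC P hP,
    fun P hP P' hP' h hh i => h3 (i, 1) P hP P' hP' h hh,
    fun P hP P' hP' h hh c => h3 (c, 2) P hP P' hP' h hh,
    fun h hh c => h3 (c, 3) h hh h hh h hh,
    fun P hP h hh κ => h3 (κ, 4) P hP h hh P hP⟩

/-- one step of the construction -/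
theorem avoid_step {z : ℕ → Bool} {ec : ℕ → OCode} {A : Set (ℕ → List (List Bool))}
    (hA : Closed z ec A) {w : ℕ → (ℕ → Bool)} (hw : ∀ m, ∀ C ∈ A, IsTest C → w m ∉ Nl C)
    {P h C : ℕ → List (List Bool)} {j : ℕ} (hP : P ∈ A) (hh : h ∈ A) (hC : C ∈ A)
    (hCt : IsTest C) (hs : Slack P j) (hd : Dec z P h) (B : ℕ) :
    ∃ h' ∈ A, ∃ D > B, AgreeB D h h' ∧ Allow (promise P C j) D h' ∧ Dec z (promise P C j) h' ∧
      Allow P D h ∧
      (∀ c ≤ j, ∀ n ≤ j, ∀ H', AgreeB D h H' → Allow P D H' →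
        V z (ec c) H' n = V z (ec c) h n) ∧
      ∀ c ≤ j, ∀ m ≤ j, ∀ n0, (∀ n ≥ n0, w m ∉ Cov (V z (ec c) h n)) →
        ∀ n ≥ n0, w m ∉ Cov (V z (ec c) h' n) := by
  have h1 : ∀ c m, ∃ N, ∀ n ≥ N, w m ∉ Cov (Uc z ec P (promise P C j) h c n) := by
    intro c m
    by_contra hcon
    push Not at hcon
    exact hw m _ (hA.uc P hP _ (hA.promise P hP C hC j) h hh c)
      (isTest_regroup fun n => wt_Uc z ec P (promise P C j) h c n) (mem_regroup hcon)
  choose n1 hn1 using h1
  let i := j + (B + 1) + ∑ c ∈ Finset.range (j + 1), ∑ m ∈ Finset.range (j + 1), n1 c m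
  have hi : ∀ c ≤ j, ∀ m ≤ j, n1 c m ≤ i := by
    intro c hc m hm
    have h2 : n1 c m ≤ ∑ m ∈ Finset.range (j + 1), n1 c m :=
      Finset.single_le_sum (f := n1 c) (fun _ _ => Nat.zero_le _) (Finset.mem_range.2 (by omega))
    have h3 : ∑ m ∈ Finset.range (j + 1), n1 c m ≤
        ∑ c ∈ Finset.range (j + 1), ∑ m ∈ Finset.range (j + 1), n1 c m :=
      Finset.single_le_sum (f := fun c => ∑ m ∈ Finset.range (j + 1), n1 c m)
        (fun _ _ => Nat.zero_le _) (Finset.mem_range.2 (by omega))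
    exact (h2.trans h3).trans (Nat.le_add_left _ _)
  have hij : j ≤ i := (Nat.le_add_right _ _).trans (Nat.le_add_right _ _)
  have hiB : B < i := by
    have : B + 1 ≤ i := (Nat.le_add_left _ _).trans (Nat.le_add_right _ _)
    omega
  obtain ⟨k1, k2, k3⟩ := kap_spec hd ec i
  obtain ⟨g1, g2, g3⟩ := gext_spec z (hs.promise hCt).isTest h (kap z ec P h i)
  refine ⟨fam z ec P (promise P C j) h i, hA.fam P hP _ (hA.promise P hP C hC j) h hh i,
    kap z ec P h i, hiB.trans_le k1, g1, g2, g3, k2,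
    fun c hc n hn H' h5 h6 => k3 c (hc.trans hij) n (hn.trans hij) H' h5 h6,
    fun c hc m hm n0 hn0 n hn => ?_⟩
  rcases Nat.lt_or_ge i n with hin | hin
  · intro hcov
    refine hn1 c m n ((hi c hc m hm).trans hin.le) ?_
    have hcn : c ≤ n := (hc.trans hij).trans hin.le
    obtain ⟨s, hs, hsw⟩ := hcov
    refine ⟨s, ?_, hsw⟩
    unfold Uc
    rw [if_pos hcn]
    exact List.mem_flatMap.2 ⟨i, List.mem_range.2 hin, hs⟩
  · have h7 : V z (ec c) (fam z ec P (promise P C j) h i) n = V z (ec c) h n :=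
      k3 c (hc.trans hij) n hin _ g1 g2.of_promise
    rw [h7]
    exact hn0 n hn

/-- For every `z` there is a countable set `L` of tests such that for every sequence `w` of points
that are not covered by the tests in `L` some `y` above `z` captures the union of the null sets
with a test in `L`, but does not capture any of these points. -/
theorem exists_dominate (z : ℕ → Bool) : ∃ L : Set (ℕ → List (List Bool)), L.Countable ∧
    (∀ C ∈ L, IsTest C) ∧ ∀ w : ℕ → (ℕ → Bool), (∀ m, ∀ C ∈ L, w m ∉ Nl C) →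
      ∃ y H, TLE z y ∧ IsTest H ∧ Computes y H ∧ (∀ C ∈ L, Nl C ⊆ Nl H) ∧
        ∀ m, w m ∉ NN y := by
  classical
  obtain ⟨ec, hec⟩ : ∃ e : ℕ → OCode, Function.Surjective e := by
    have : Nonempty OCode := ⟨OCode.zero⟩
    exact exists_surjective_nat _
  obtain ⟨A, hAc, hA⟩ := exists_closed z ec
  refine ⟨{C ∈ A | IsTest C}, hAc.mono fun _ h => h.1, fun _ h => h.2, fun w hw0 => ?_⟩
  have hw : ∀ m, ∀ C ∈ A, IsTest C → w m ∉ Nl C := fun m C h1 h2 => hw0 m C ⟨h1, h2⟩
  have hnil : IsTest fun _ => ([] : List (List Bool)) := fun n => by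
    rw [wt_nil]
    positivity
  obtain ⟨eC, heC⟩ := (hAc.mono (fun _ h => h.1 : {C ∈ A | IsTest C} ⊆ A)).exists_eq_range
    ⟨fun _ => [], hA.nil, hnil⟩
  have heC' : ∀ n, eC n ∈ A ∧ IsTest (eC n) := fun n => by
    have : eC n ∈ {C ∈ A | IsTest C} := by
      rw [heC]
      exact Set.mem_range_self n
    exact this
  -- the invariant: promise, current sequence, number of fixed entries
  let Inv : ℕ → (ℕ → List (List Bool)) × (ℕ → List (List Bool)) × ℕ → Prop := fun j s =>
    s.1 ∈ A ∧ s.2.1 ∈ A ∧ Slack s.1 j ∧ Dec z s.1 s.2.1 ∧ Allow s.1 s.2.2 s.2.1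
  have step : ∀ j (s : {s // Inv j s}), ∃ s' : {s // Inv (j + 1) s},
      s'.1.1 = promise s.1.1 (eC j) j ∧ s.1.2.2 < s'.1.2.2 ∧
      AgreeB s'.1.2.2 s.1.2.1 s'.1.2.1 ∧
      (∀ c ≤ j, ∀ n ≤ j, ∀ H', AgreeB s'.1.2.2 s.1.2.1 H' → Allow s.1.1 s'.1.2.2 H' →
        V z (ec c) H' n = V z (ec c) s.1.2.1 n) ∧
      ∀ c ≤ j, ∀ m ≤ j, ∀ n0, (∀ n ≥ n0, w m ∉ Cov (V z (ec c) s.1.2.1 n)) →
        ∀ n ≥ n0, w m ∉ Cov (V z (ec c) s'.1.2.1 n) := by
    rintro j ⟨⟨P, h, D⟩, h1, h2, h3, h4, h5⟩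
    obtain ⟨h', k1, D', k2, k3, k4, k5, -, k6, k7⟩ :=
      avoid_step hA hw h1 h2 (heC' j).1 (heC' j).2 h3 h4 D
    exact ⟨⟨(promise P (eC j) j, h', D'), hA.promise P h1 _ (heC' j).1 j, k1,
      h3.promise (heC' j).2, k5, k4⟩, rfl, k2, k3, k6, k7⟩
  choose Φ hΦ1 hΦ2 hΦ3 hΦ4 hΦ5 using step
  have hslack0 : Slack (fun _ => []) 0 := fun k => by
    rw [wt_nil, zero_add, add_zero]
  obtain ⟨g1, g2, g3⟩ := gext_spec z hnil (fun _ => []) 0
  let s0 : {s // Inv 0 s} := ⟨(fun _ => [], gext z (fun _ => []) (fun _ => []) 0, 0), hA.nil,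
    hA.ext _ hA.nil _ hA.nil 0, hslack0, g3, g2⟩
  let st : ∀ j, {s // Inv j s} := fun j => Nat.rec s0 Φ j
  have hst : ∀ j, st (j + 1) = Φ j (st j) := fun j => rfl
  let P : ℕ → (ℕ → List (List Bool)) := fun j => (st j).1.1
  let h : ℕ → (ℕ → List (List Bool)) := fun j => (st j).1.2.1
  let D : ℕ → ℕ := fun j => (st j).1.2.2
  have hInv : ∀ j, P j ∈ A ∧ h j ∈ A ∧ Slack (P j) j ∧ Dec z (P j) (h j) ∧
      Allow (P j) (D j) (h j) := fun j => (st j).2
  have hP : ∀ j, P (j + 1) = promise (P j) (eC j) j := fun j => by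
    have := hΦ1 j (st j)
    rw [← hst] at this
    exact this
  have hD : ∀ j, D j < D (j + 1) := fun j => by
    have := hΦ2 j (st j)
    rw [← hst] at this
    exact this
  have hagree : ∀ j, AgreeB (D (j + 1)) (h j) (h (j + 1)) := fun j => by
    have := hΦ3 j (st j)
    rw [← hst] at this
    exact this
  have hval : ∀ j, ∀ c ≤ j, ∀ n ≤ j, ∀ H', AgreeB (D (j + 1)) (h j) H' →
      Allow (P j) (D (j + 1)) H' → V z (ec c) H' n = V z (ec c) (h j) n := fun j => by
    have := hΦ4 j (st j)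
    rw [← hst] at this
    exact this
  have havoid : ∀ j, ∀ c ≤ j, ∀ m ≤ j, ∀ n0, (∀ n ≥ n0, w m ∉ Cov (V z (ec c) (h j) n)) →
      ∀ n ≥ n0, w m ∉ Cov (V z (ec c) (h (j + 1)) n) := fun j => by
    have := hΦ5 j (st j)
    rw [← hst] at this
    exact this
  have hDmono : StrictMono D := strictMono_nat_of_lt_succ hD
  obtain ⟨H, hH⟩ := fusion_limit h (fun j => D (j + 1)) (fun j => hD (j + 1)) hagree
  -- promises are kept
  have hPmono : ∀ i j, i ≤ j → ∀ d H', Allow (P j) d H' → Allow (P i) d H' := by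
    intro i j hij
    induction hij with
    | refl => exact fun d H' h1 => h1
    | @step j _ ih =>
      intro d H' h1
      rw [hP] at h1
      exact ih d H' h1.of_promise
  have hallow : ∀ i j, i ≤ j → Allow (P i) (D i) (h j) := by
    intro i j hij
    induction hij with
    | refl => exact (hInv i).2.2.2.2
    | @step j hij ih =>
      exact ih.patch (hagree j) (hPmono i (j + 1) (Nat.le_succ_of_le hij) _ _
        (hInv (j + 1)).2.2.2.2)
  have hHallow : ∀ i, Allow (P i) (D i) H := by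
    intro i k hk
    have h1 : k < D (max i k + 1) := by
      have h2 := hDmono.le_apply (x := max i k + 1)
      have h3 := le_max_right i k
      omega
    rw [hH (max i k) k h1]
    exact hallow i (max i k) (le_max_left _ _) k hk
  have hHtest : IsTest H := fun k => (hHallow 0 k (by
    have : D 0 = 0 := rfl
    omega)).2
  refine ⟨join z (gr H), H, TLE.join_left _ _, hHtest,
    TR_of_grf (F := fun k => Encodable.encode (H k)) (TLE.join_right _ _), fun C hC x hx => ?_,
    fun m hwy => ?_⟩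
  · rw [heC] at hC
    obtain ⟨j, rfl⟩ := hC
    intro N
    obtain ⟨n, hn, s, hs, hxs⟩ := hx (max N (D (j + 1)) + j + 1)
    refine ⟨n - j - 1, by omega, s, ?_, hxs⟩
    refine (hHallow (j + 1) (n - j - 1) (by omega)).1 s ?_
    rw [hP]
    unfold promise
    have : n - j - 1 + j + 1 = n := by omega
    rw [this]
    exact List.mem_append_right _ hs
  · obtain ⟨C', hC't, hC', hwC⟩ := mem_NN.1 hwy
    obtain ⟨c0, hc0⟩ := exists_code hC'
    obtain ⟨c, rfl⟩ := hec c0
    have h1 : ∀ n, V z (ec c) H n = C' n := by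
      intro n
      have h2 : Val z (ec c) H n (C' n) := by
        unfold Val
        rw [hc0]
        exact Part.mem_some _
      rw [V_eq h2, trim_eq (hC't n)]
    obtain ⟨n0, hn0⟩ : ∃ n0, ∀ n ≥ n0, w m ∉ Cov (V z (ec c) (h (max c m)) n) := by
      have h3 := hw m _ (hA.v _ (hInv (max c m)).2.1 c) (isTest_V z (ec c) (h (max c m)))
      simp only [Nl, Set.mem_ofPred_eq, not_forall, not_exists, not_and] at h3
      exact h3
    have h4 : ∀ j, max c m ≤ j → ∀ n ≥ n0, w m ∉ Cov (V z (ec c) (h j) n) := by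
      intro j hj
      induction hj with
      | refl => exact hn0
      | @step j hj ih =>
        exact havoid j c ((le_max_left _ _).trans hj) m ((le_max_right _ _).trans hj) n0 ih
    obtain ⟨n, hn, hwn⟩ := hwC n0
    have h5 : c ≤ max (max c m) n := (le_max_left c m).trans (le_max_left _ _)
    rw [← h1, hval (max (max c m) n) c h5 n (le_max_right _ _) H (hH (max (max c m) n))
      ((hHallow (max (max c m) n)).mono (hD (max (max c m) n)).le)] at hwn
    exact h4 (max (max c m) n) (le_max_left _ _) n hn hwn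

end Pool.Agent.Helper56WN
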