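import Mathlib
import Pool.Agent.Helper56_WN.Bound
import Pool.Agent.Helper56_WN.Dominate

/-!
# The game for a family of null sets
-/

set_option autoImplicit false

namespace Pool.Agent.Helper56WN

open Pool.Agent.Helper25TD Pool.Agent.Helper55AX Pool.Agent.Helper56TB MeasureTheory

variable {E : Set (ℕ → Bool)} {h : (ℕ → Bool) → Set (ℕ → Bool)}

/-- If `E` is not null, then `Uncovered E h` meets every cone. -/
theorem exists_mem_uncovered (hh : ∀ x ∈ E, coin (h x) = 0) (hE : ¬ coin E = 0)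
    (z : ℕ → Bool) : ∃ t, TLE z t ∧ t ∈ Uncovered E h := by
  obtain ⟨Z, hZ⟩ := exists_sacks
  have step : ∀ y : ℕ → Bool, ∃ y' x : ℕ → Bool, TLE y y' ∧ x ∈ E ∧ x ∉ NN y ∧
      Captures y' (h x) := by
    intro y
    obtain ⟨x, hxE, hx⟩ : ∃ x ∈ E, x ∉ NN y := by
      by_contra hcon
      push Not at hcon
      exact hE (measure_mono_null hcon (coin_NN y))
    obtain ⟨C, hCt, hC⟩ := exists_Nl (hh x hxE)
    obtain ⟨zC, hzC⟩ := exists_computes C
    exact ⟨join y zC, x, TLE.join_left _ _, hxE, hx, C, hCt, hzC _ (TLE.join_right _ _), hC⟩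
  choose F X h1 h2 h3 h4 using step
  let y : ℕ → (ℕ → Bool) := fun n => Nat.rec (join z Z) (fun _ y => F y) n
  have hy : ∀ n, y (n + 1) = F (y n) := fun n => rfl
  obtain ⟨t, ht1, ht2⟩ := hZ y (TLE.join_right z Z) (fun n => by
    rw [hy]
    exact h1 _)
  refine ⟨t, (TLE.join_left z Z).trans (ht1 0), ?_⟩
  rintro ⟨C, hCt, hC, hCS⟩
  obtain ⟨n, C', hC't, hC', hCC⟩ := ht2 C hCt hC
  have h5 : Captures t (h (X (y n))) := by
    refine (h4 (y n)).mono ?_ subset_rfl
    have := ht1 (n + 1)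
    rwa [hy] at this
  exact h3 (y n) (mem_NN.2 ⟨C', hC't, hC', hCC (hCS ⟨h2 (y n), h5⟩)⟩)

/-- If every null set `N` has a countable set of points outside `N` that meets all `h x`,
`x ∈ E \ N`, then the complement of `Uncovered E h` meets every cone. -/
theorem exists_not_mem_uncovered (hX : ∀ N, coin N = 0 → ∃ X : Set (ℕ → Bool), X.Countable ∧
      Disjoint X N ∧ ∀ x ∈ E, x ∉ N → (h x ∩ X).Nonempty)
    (z : ℕ → Bool) : ∃ t, TLE z t ∧ t ∉ Uncovered E h := by
  obtain ⟨L, hLc, hLt, hL⟩ := exists_dominate z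
  have hnull : coin (⋃ C ∈ L, Nl C) = 0 := coin_biUnion hLc hLt
  obtain ⟨X, hXc, hXd, hXh⟩ := hX _ hnull
  obtain ⟨w0, hw0⟩ : ∃ w0, w0 ∉ ⋃ C ∈ L, Nl C := by
    by_contra hcon
    push Not at hcon
    have h1 : (⋃ C ∈ L, Nl C) = Set.univ := Set.eq_univ_of_forall hcon
    rw [h1, measure_univ] at hnull
    exact one_ne_zero hnull
  obtain ⟨w, hw⟩ := (hXc.insert w0).exists_eq_range (Set.insert_nonempty w0 X)
  obtain ⟨y, H, hzy, hHt, hH, hLH, hwy⟩ := hL w fun m C hC hwC => by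
    have h1 : w m ∈ insert w0 X := by
      rw [hw]
      exact Set.mem_range_self m
    have h2 : w m ∈ ⋃ C ∈ L, Nl C := Set.mem_biUnion hC hwC
    rcases Set.mem_insert_iff.1 h1 with h3 | h3
    · rw [h3] at h2
      exact hw0 h2
    · exact Set.disjoint_left.1 hXd h3 h2
  refine ⟨y, hzy, fun hW => hW ⟨H, hHt, hH, ?_⟩⟩
  rintro x ⟨hxE, hxy⟩
  have hxN : x ∈ ⋃ C ∈ L, Nl C := by
    by_contra hxN
    obtain ⟨v, hv1, hv2⟩ := hXh x hxE hxN
    have h1 : v ∈ insert w0 X := Set.mem_insert_of_mem _ hv2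
    rw [hw] at h1
    obtain ⟨m, rfl⟩ := h1
    exact hwy m (hxy.subset_NN hv1)
  obtain ⟨C, hC, hxC⟩ := Set.mem_iUnion₂.1 hxN
  exact hLH C hC hxC

/-- If player II wins, then `E` is null. -/
theorem null_of_winsII (hh : ∀ x ∈ E, coin (h x) = 0) (hw : WinsII (Uncovered E h)) :
    coin E = 0 := by
  by_contra hE
  obtain ⟨z, hz⟩ := cone_of_winsII (turingInvariant_uncovered E h) hw
  obtain ⟨t, ht, ht'⟩ := exists_mem_uncovered hh hE z
  exact hz t ht ht'

/-- Player II wins if and only if `E` is null. -/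
theorem winsII_iff (hh : ∀ x ∈ E, coin (h x) = 0) :
    WinsII (Uncovered E h) ↔ coin E = 0 := by
  refine ⟨null_of_winsII hh, fun hE => ?_⟩
  obtain ⟨C, hCt, hC⟩ := exists_Nl hE
  obtain ⟨z, hz⟩ := exists_computes C
  exact winsII_of_cone (z := z) fun y hy hW =>
    hW ⟨C, hCt, hz y hy, fun x hx => hC hx.1⟩

/-- If player I wins, then there is a null set `N` such that no countable set of points outside
`N` meets all `h x`, `x ∈ E \ N`. -/
theorem exists_null_of_winsI (hw : WinsI (Uncovered E h)) : ∃ N, coin N = 0 ∧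
    ∀ X : Set (ℕ → Bool), X.Countable → Disjoint X N → ∃ x ∈ E, x ∉ N ∧ Disjoint (h x) X := by
  by_contra hcon
  push Not at hcon
  obtain ⟨z, hz⟩ := cone_of_winsI (turingInvariant_uncovered E h) hw
  obtain ⟨t, ht, ht'⟩ := exists_not_mem_uncovered (E := E) (h := h) (fun N hN => by
    obtain ⟨X, hX1, hX2, hX3⟩ := hcon N hN
    exact ⟨X, hX1, hX2, fun x hx hxN => Set.not_disjoint_iff_nonempty_inter.1 (hX3 x hx hxN)⟩) z
  exact ht' (hz t ht)

end Pool.Agent.Helper56WN
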