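import Mathlib
import Pool.Agent.Helper56_WN.Main

/-!
# Consequences: well-ordered unions of null sets, and Freiling's axiom of symmetry
-/

set_option autoImplicit false

namespace Pool.Agent.Helper56WN

open Pool.Agent.Helper25TD MeasureTheory

/-- If the game with payoff set `Uncovered E h` is determined and `E` is not null, then there is a
null set `N` such that no countable set of points outside `N` meets all `h x`, `x ∈ E \ N`. -/
theorem main {E : Set (ℕ → Bool)} {h : (ℕ → Bool) → Set (ℕ → Bool)}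
    (hh : ∀ x ∈ E, coin (h x) = 0) (hW : WinsI (Uncovered E h) ∨ WinsII (Uncovered E h))
    (hE : coin E ≠ 0) : ∃ N, coin N = 0 ∧
    ∀ X : Set (ℕ → Bool), X.Countable → Disjoint X N → ∃ x ∈ E, x ∉ N ∧ Disjoint (h x) X := by
  rcases hW with hW | hW
  · exact exists_null_of_winsI hW
  · exact absurd (null_of_winsII hh hW) hE

theorem coin_insert {x : ℕ → Bool} {S : Set (ℕ → Bool)} (hS : coin S = 0) :
    coin (insert x S) = 0 := by
  have h1 : coin {x} = 0 := by
    let C : ℕ → List (List Bool) := fun n => [pre x (2 * n)]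
    have hC : IsTest C := fun n => by
      simp only [C, wt, List.map_cons, List.map_nil, List.sum_cons, List.sum_nil, add_zero]
      rw [show (pre x (2 * n)).length = 2 * n by simp [pre], pow_mul]
      norm_num
    refine measure_mono_null (fun y hy => ?_) (coin_Nl hC)
    rw [Set.mem_singleton_iff] at hy
    subst hy
    exact fun N => ⟨N, le_rfl, _, List.mem_singleton_self _, init_pre y _⟩
  rw [Set.insert_eq]
  exact measure_union_null h1 hS

/-- Freiling's axiom of symmetry: if `f` has countable values and `g` has null values on the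
non-null set `E`, then there are `x` and `y` in `E` with `x ∉ f y` and `y ∉ g x`. -/
theorem freiling {E : Set (ℕ → Bool)} {f g : (ℕ → Bool) → Set (ℕ → Bool)}
    (hf : ∀ x ∈ E, (f x).Countable) (hg : ∀ x ∈ E, coin (g x) = 0)
    (hW : WinsI (Uncovered E fun x => insert x (g x)) ∨
      WinsII (Uncovered E fun x => insert x (g x))) (hE : coin E ≠ 0) :
    ∃ x ∈ E, ∃ y ∈ E, x ∉ f y ∧ y ∉ g x := by
  obtain ⟨N, hN, hX⟩ := main (fun x hx => coin_insert (hg x hx)) hW hE
  obtain ⟨w, hwE, hwN⟩ : ∃ w ∈ E, w ∉ N := by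
    by_contra hcon
    push Not at hcon
    exact hE (measure_mono_null hcon hN)
  obtain ⟨x, hxE, hxN, hx⟩ := hX (insert w (f w \ N))
    (((hf w hwE).mono Set.sdiff_subset).insert w) (by
      rw [Set.disjoint_left]
      intro a ha haN
      rcases Set.mem_insert_iff.1 ha with h1 | h1
      · exact hwN (h1 ▸ haN)
      · exact h1.2 haN)
  refine ⟨x, hxE, w, hwE, fun h1 => ?_, fun h1 => ?_⟩
  · exact Set.disjoint_left.1 hx (Set.mem_insert x _) (Set.mem_insert_of_mem _ ⟨h1, hxN⟩)
  · exact Set.disjoint_left.1 hx (Set.mem_insert_of_mem _ h1) (Set.mem_insert w _)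

/-- Well-ordered unions of null sets are null. -/
theorem well_ordered {ι : Type*} [LinearOrder ι] [WellFoundedLT ι] {M : ι → Set (ℕ → Bool)}
    (hM : ∀ i, coin (M i) = 0)
    (hTD : ∀ A : Set (ℕ → Bool), TuringInvariant A → WinsI A ∨ WinsII A) :
    coin (⋃ i, M i) = 0 := by
  classical
  let U : ι → Set (ℕ → Bool) := fun i => ⋃ j ∈ Set.Iic i, M j
  have hUmono : ∀ i j, i ≤ j → U i ⊆ U j := fun i j h =>
    Set.biUnion_subset_biUnion_left (Set.Iic_subset_Iic.2 h)
  -- it suffices to treat the null initial unions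
  let E : Set (ℕ → Bool) := ⋃ i ∈ {i | coin (U i) = 0}, U i
  have key : coin E = 0 := by
    by_contra hE
    have hex : ∀ x ∈ E, ∃ i, x ∈ U i ∧ coin (U i) = 0 ∧ ∀ j, x ∈ U j → i ≤ j := by
      intro x hx
      obtain ⟨i, hi, hxi⟩ := Set.mem_iUnion₂.1 hx
      obtain ⟨k, hk, hmin⟩ := WellFounded.has_min (wellFounded_lt (α := ι)) {j | x ∈ U j}
        ⟨i, hxi⟩
      have h1 : ∀ j, x ∈ U j → k ≤ j := fun j hj => not_lt.1 (hmin j hj)
      exact ⟨k, hk, measure_mono_null (hUmono k i (h1 i hxi)) hi, h1⟩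
    have : Nonempty ι := by
      by_contra hemp
      rw [not_nonempty_iff] at hemp
      refine hE ?_
      have : E = ∅ := by
        ext x
        simp [E]
      rw [this]
      exact measure_empty
    choose! r hr1 hr2 hr3 using hex
    let h : (ℕ → Bool) → Set (ℕ → Bool) := fun x => U (r x)
    obtain ⟨N, hN, hX⟩ := main (E := E) (h := h) (fun x hx => hr2 x hx)
      (hTD _ (turingInvariant_uncovered E h)) hE
    obtain ⟨w, ⟨hwE, hwN⟩, hmin⟩ : ∃ w, (w ∈ E ∧ w ∉ N) ∧ ∀ x ∈ E, x ∉ N → r w ≤ r x := by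
      have hne : (r '' {w | w ∈ E ∧ w ∉ N}).Nonempty := by
        rw [Set.image_nonempty]
        by_contra hcon
        refine hE (measure_mono_null (fun x hx => ?_) hN)
        by_contra hxN
        exact hcon ⟨x, hx, hxN⟩
      obtain ⟨i, ⟨w, hw, rfl⟩, hmin⟩ := WellFounded.has_min (wellFounded_lt (α := ι)) _ hne
      exact ⟨w, hw, fun x hx hxN => not_lt.1 (hmin (r x) ⟨x, ⟨hx, hxN⟩, rfl⟩)⟩
    obtain ⟨x, hxE, hxN, hx⟩ := hX {w} (Set.countable_singleton w)
      (Set.disjoint_singleton_left.2 hwN)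
    refine Set.disjoint_left.1 hx ?_ (Set.mem_singleton w)
    exact hUmono _ _ (hmin x hxE hxN) (hr1 w hwE)
  have hall : ∀ i, coin (U i) = 0 := by
    by_contra hcon
    push Not at hcon
    obtain ⟨i, hi, hmin⟩ := WellFounded.has_min (wellFounded_lt (α := ι))
      {i | ¬ coin (U i) = 0} hcon
    refine hi (measure_mono_null (fun x hx => ?_) (measure_union_null key (hM i)))
    obtain ⟨j, hj, hxj⟩ := Set.mem_iUnion₂.1 hx
    rcases lt_or_eq_of_le (Set.mem_Iic.1 hj) with h1 | h1
    · left
      have h2 : coin (U j) = 0 := by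
        by_contra h3
        exact hmin j h3 h1
      exact Set.mem_biUnion (h2 : j ∈ {i | coin (U i) = 0})
        (Set.mem_biUnion (Set.mem_Iic.2 le_rfl) hxj)
    · right
      rwa [← h1]
  refine measure_mono_null (fun x hx => ?_) key
  obtain ⟨i, hi⟩ := Set.mem_iUnion.1 hx
  exact Set.mem_biUnion (hall i : i ∈ {i | coin (U i) = 0})
    (Set.mem_biUnion (Set.mem_Iic.2 le_rfl) hi)

end Pool.Agent.Helper56WN
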